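import Pool.Agent.U610.PC.Stm
import Pool.Agent.W335.BMX.Odd

/-!
Project PC (helper610), package INF: near infinity.
-/

set_option autoImplicit false

namespace Pool.Agent.U803.PC

open Polynomial Pool.Agent.U610.PC

theorem toZMod_zero {p : ℕ} [hp : Fact p.Prime] {g : ℤ_[p]} (hg : ‖g‖ < 1) : PadicInt.toZMod g = 0 := by
  rw [Pool.Agent.W335.BMX.toZMod_eq_zero_iff, ← PadicInt.norm_lt_one_iff_dvd]
  exact hg

theorem key {p : ℕ} [hp : Fact p.Prime] (hp2 : p ≠ 2) (P : ℤ[X]) (hP : ¬ (p : ℤ) ∣ P.leadingCoeff)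
    (hsq : IsSquare ((P.leadingCoeff : ℤ) : ℚ_[p])) (β : ℚ_[p]) (hβ : 1 < ‖β‖) (hβs : IsSquare β) :
    ∃ s : ℚ_[p], s ≠ 0 ∧ aeval β P = s ^ 2 := by
  have hβ0 : β ≠ 0 := by
    rintro rfl
    rw [norm_zero] at hβ
    linarith
  have hγ : ‖β⁻¹‖ < 1 := by
    rw [norm_inv]
    exact inv_lt_one_of_one_lt₀ hβ
  set g : ℤ_[p] := ⟨β⁻¹, hγ.le⟩ with hg
  have hg1 : ‖g‖ < 1 := hγ
  have hg0 : PadicInt.toZMod g = 0 := toZMod_zero hg1
  set u : ℤ_[p] := aeval g P.reverse with hu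
  have hlc0 : ((P.leadingCoeff : ℤ) : ZMod p) ≠ 0 := by
    rw [Ne, ZMod.intCast_zmod_eq_zero_iff_dvd]
    exact hP
  have hu1 : PadicInt.toZMod u = ((P.leadingCoeff : ℤ) : ZMod p) := by
    rw [hu, aeval_def, hom_eval₂, hg0]
    have h1 : (PadicInt.toZMod (p := p)).comp (algebraMap ℤ ℤ_[p]) = algebraMap ℤ (ZMod p) :=
      RingHom.ext_int _ _
    rw [h1, ← aeval_def, ← coeff_zero_eq_aeval_zero', coeff_zero_reverse]
    simp
  obtain ⟨s, hs⟩ := hsq
  have hlcn : ‖((P.leadingCoeff : ℤ) : ℚ_[p])‖ = 1 := by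
    have e : ‖((P.leadingCoeff : ℤ) : ℚ_[p])‖ = ‖((P.leadingCoeff : ℤ) : ℤ_[p])‖ := by
      rw [PadicInt.norm_def, PadicInt.coe_intCast]
    rw [e]
    refine le_antisymm (PadicInt.norm_le_one _) ?_
    by_contra hc
    rw [not_le, PadicInt.norm_int_lt_one_iff_dvd] at hc
    exact hP hc
  have hsn : ‖s‖ = 1 := by
    rw [hs, norm_mul] at hlcn
    have h0 : 0 ≤ ‖s‖ := norm_nonneg s
    nlinarith
  set s' : ℤ_[p] := ⟨s, hsn.le⟩ with hs'
  have hs2 : ((P.leadingCoeff : ℤ) : ℤ_[p]) = s' * s' := by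
    apply Subtype.ext
    rw [PadicInt.coe_mul, PadicInt.coe_intCast]
    exact hs
  have hu2 : PadicInt.toZMod u = PadicInt.toZMod s' ^ 2 := by
    rw [hu1, sq, ← map_mul, ← hs2, map_intCast]
  have hs0 : PadicInt.toZMod s' ≠ 0 := by
    intro h
    rw [hu1, h] at hu2
    apply hlc0
    rw [hu2]
    ring
  obtain ⟨v, hv⟩ := Pool.Agent.W335.BMX.sq_of_residue hp2 u (PadicInt.toZMod s') hs0 hu2
  have hu0 : u ≠ 0 := by
    intro h
    rw [h, map_zero] at hu1
    exact hlc0 hu1.symm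
  obtain ⟨w, hw⟩ := hβs
  have hrev : aeval β P = (u : ℚ_[p]) * β ^ P.natDegree := by
    let _ : Invertible β := invertibleOfNonzero hβ0
    have h1 := eval₂_reverse_mul_pow (algebraMap ℤ ℚ_[p]) β P
    rw [aeval_def, ← h1]
    congr 1
    have h2 : (⅟β : ℚ_[p]) = algebraMap ℤ_[p] ℚ_[p] g := by
      rw [invOf_eq_inv]
      rfl
    rw [← aeval_def, h2, aeval_algebraMap_apply]
    rfl
  refine ⟨(v : ℚ_[p]) * w ^ P.natDegree, ?_, ?_⟩
  · have hv0 : v ≠ 0 := by
      rintro rfl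
      rw [mul_zero] at hv
      exact hu0 hv
    have hw0 : w ≠ 0 := by
      rintro rfl
      rw [mul_zero] at hw
      exact hβ0 hw
    have hv0' : (v : ℚ_[p]) ≠ 0 := by
      intro h
      apply hv0
      exact Subtype.ext h
    exact mul_ne_zero hv0' (pow_ne_zero _ hw0)
  · rw [hrev, hv, PadicInt.coe_mul]
    nth_rewrite 1 [hw]
    ring

theorem t_INF : S_INF := by
  classical
  intro n hn D hD
  refine ⟨2 + ∑ i, (D i).leadingCoeff.natAbs, ?_⟩
  intro p hp hpN hm1 hlc b hb hbs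
  have hp2 : p ≠ 2 := by omega
  have hnd : ∀ i, ¬ (p : ℤ) ∣ (D i).leadingCoeff := by
    intro i h
    have h1 : (D i).leadingCoeff ≠ 0 := leadingCoeff_ne_zero.2 (hD i)
    have h2 : p ∣ (D i).leadingCoeff.natAbs := Int.natCast_dvd.1 h
    have h3 : p ≤ (D i).leadingCoeff.natAbs := Nat.le_of_dvd (Int.natAbs_pos.2 h1) h2
    have h4 : (D i).leadingCoeff.natAbs ≤ ∑ i, (D i).leadingCoeff.natAbs :=
      Finset.single_le_sum (f := fun i => (D i).leadingCoeff.natAbs) (fun _ _ => Nat.zero_le _)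
        (Finset.mem_univ i)
    omega
  have hcast : ∀ i, ((aeval b (D i) : ℚ) : ℚ_[p]) = aeval (b : ℚ_[p]) (D i) := by
    intro i
    have h1 := aeval_algebraMap_apply ℚ_[p] b (D i)
    rw [eq_ratCast (algebraMap ℚ ℚ_[p]), eq_ratCast (algebraMap ℚ ℚ_[p])] at h1
    exact h1.symm
  choose s hs0 hs using fun i => key hp2 (D i) (hnd i) (hlc i) (b : ℚ_[p]) hb hbs
  obtain ⟨t, ht⟩ := hm1
  set i0 : Fin n := ⟨0, by omega⟩ with hi0
  set i1 : Fin n := ⟨1, by omega⟩ with hi1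
  have h01 : i0 ≠ i1 := by
    intro h
    rw [hi0, hi1, Fin.mk.injEq] at h
    omega
  refine ⟨fun i => if i = i0 then 1 / s i0 else if i = i1 then t / s i1 else 0, ?_, ?_⟩
  · intro h
    have h1 := congrFun h i0
    simp only [if_true, Pi.zero_apply] at h1
    exact one_div_ne_zero (hs0 i0) h1
  · have h2 : ∀ i, ((aeval b (D i) : ℚ) : ℚ_[p]) *
        (if i = i0 then 1 / s i0 else if i = i1 then t / s i1 else 0) ^ 2 =
        (if i = i0 then 1 else 0) + (if i = i1 then -1 else 0) := by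
      intro i
      rw [hcast, hs]
      by_cases hi : i = i0
      · rw [if_pos hi, if_pos hi, if_neg (by rw [hi]; exact h01), hi]
        have := hs0 i0
        field_simp
        ring
      · rw [if_neg hi, if_neg hi]
        by_cases hi' : i = i1
        · rw [if_pos hi', if_pos hi', hi', ht]
          have := hs0 i1
          field_simp
          ring
        · rw [if_neg hi', if_neg hi']
          ring
    rw [Finset.sum_congr rfl fun i _ => h2 i, Finset.sum_add_distrib, Finset.sum_ite_eq', Finset.sum_ite_eq']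
    simp

end Pool.Agent.U803.PC
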